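import Pool.Agent.S5.K.Z.NE
import Pool.Agent.S5.E.T.W9

/-!
# Closed nodes: the entries of the ends cover all cases
-/

set_option autoImplicit false

namespace Pool.Agent.S5.K

theorem covE9 : covE E.Tfin lNE = true := by decide +kernel

end Pool.Agent.S5.K
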