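import Pool.Agent.S5.K.Z.CN
import Pool.Agent.S5.K.Z.CE
import Pool.Agent.S5.Fld.W9

/-!
# Closed nodes: the statements at all nodes with two half twists
-/

set_option autoImplicit false

namespace Pool.Agent.S5.K

variable {R : ℕ} {a : ℕ → ℕ} {S : ℕ → Bool} {z ql qr : ℕ → ℂ} {zF : Fin (R + 1) → ℂ} {r : ℕ → ℤ}
  {KK : Cn R}

/-- **The statement at the inner nodes with two half twists.** -/
theorem goN9 (h : Pre E.Tfin R a S z ql qr zF) (hg : HG R a S (flO R a S) z ql qr r KK) {i : ℕ}
    (hi : i + 1 < R) (ha : a (i + 1) = 2) :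
    GoN (ntG R a (i + 1)) (slL R a S z ql (i + 1)) (slR R a S z qr (i + 1)) :=
  goN_all (W := E.W9) Fld.tabW9 covN9 lN_ok h hg hi ha

/-- **The statement at the first node, with two half twists.** -/
theorem goE9_zero (h : Pre E.Tfin R a S z ql qr zF) (hg : HG R a S (flO R a S) z ql qr r KK)
    (ha : a 0 = 2) : GoE (ntG R a 0) (slR R a S z qr 0) :=
  goE_zero covE9 lNE_ok h hg ha

/-- **The statement at the last node, with two half twists.** -/
theorem goE9_last (h : Pre E.Tfin R a S z ql qr zF) (hg : HG R a S (flO R a S) z ql qr r KK)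
    {i : ℕ} (hi : i + 1 = R) (ha : a (i + 1) = 2) :
    GoE (ntG R a (i + 1)) (slL R a S z ql (i + 1)) :=
  goE_last covE9 lNE_ok h hg hi ha

end Pool.Agent.S5.K
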