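import Pool.Agent.S5.K.Z.ND0
import Pool.Agent.S5.K.Z.ND1

/-!
# Closed nodes: the divided entries
-/

set_option autoImplicit false

namespace Pool.Agent.S5.K

theorem e68x0 : Ent.OK
    ⟨true, ⟨3, true⟩, ⟨615, 650, 481, 546, 0⟩, false, ⟨2, false⟩, ⟨775, 897, 437, 553, 0⟩⟩ :=
  Ent.dk' e68x00 e68x01

theorem e68x1 : Ent.OK
    ⟨true, ⟨3, true⟩, ⟨615, 650, 481, 546, 0⟩, false, ⟨2, false⟩, ⟨775, 897, 553, 669, 0⟩⟩ :=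
  Ent.dk' e68x10 e68x11

theorem e68x : Ent.OK
    ⟨true, ⟨3, true⟩, ⟨615, 650, 481, 546, 0⟩, false, ⟨2, false⟩, ⟨775, 897, 437, 669, 0⟩⟩ :=
  Ent.dt' e68x0 e68x1

theorem e70x01 : Ent.OK
    ⟨true, ⟨3, false⟩, ⟨821, 898, 279, 477, 0⟩, false, ⟨2, false⟩, ⟨752, 836, 291, 508, 0⟩⟩ :=
  Ent.dt' e70x010 e70x011

theorem e70x0 : Ent.OK
    ⟨true, ⟨3, false⟩, ⟨744, 898, 279, 477, 0⟩, false, ⟨2, false⟩, ⟨752, 836, 291, 508, 0⟩⟩ :=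
  Ent.dk e70x00 e70x01

theorem e70x1 : Ent.OK
    ⟨true, ⟨3, false⟩, ⟨744, 898, 279, 477, 0⟩, false, ⟨2, false⟩, ⟨836, 920, 291, 508, 0⟩⟩ :=
  Ent.dk e70x10 e70x11

theorem e70x : Ent.OK
    ⟨true, ⟨3, false⟩, ⟨744, 898, 279, 477, 0⟩, false, ⟨2, false⟩, ⟨752, 920, 291, 508, 0⟩⟩ :=
  Ent.dk' e70x0 e70x1

theorem e71x : Ent.OK
    ⟨true, ⟨3, false⟩, ⟨759, 893, 289, 458, 0⟩, false, ⟨2, false⟩, ⟨788, 921, 427, 666, 0⟩⟩ :=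
  Ent.dt' e71x0 e71x1

theorem e72x : Ent.OK
    ⟨true, ⟨3, false⟩, ⟨744, 898, 279, 477, 0⟩, false, ⟨3, false⟩, ⟨780, 872, 239, 379, 0⟩⟩ :=
  Ent.dk e72x0 e72x1

theorem e73x0 : Ent.OK
    ⟨true, ⟨3, false⟩, ⟨794, 896, 426, 607, 0⟩, false, ⟨2, false⟩, ⟨785, 917, 420, 538, 0⟩⟩ :=
  Ent.dk' e73x00 e73x01

theorem e73x1 : Ent.OK
    ⟨true, ⟨3, false⟩, ⟨794, 896, 426, 607, 0⟩, false, ⟨2, false⟩, ⟨785, 917, 538, 656, 0⟩⟩ :=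
  Ent.dk' e73x10 e73x11

theorem e73x : Ent.OK
    ⟨true, ⟨3, false⟩, ⟨794, 896, 426, 607, 0⟩, false, ⟨2, false⟩, ⟨785, 917, 420, 656, 0⟩⟩ :=
  Ent.dt' e73x0 e73x1

/-- The entries. -/
def lNT : List Ent := [
    ⟨true, ⟨3, true⟩, ⟨615, 650, 481, 546, 0⟩, false, ⟨2, false⟩, ⟨775, 897, 437, 669, 0⟩⟩,
    ⟨true, ⟨3, false⟩, ⟨744, 898, 279, 477, 0⟩, false, ⟨2, false⟩, ⟨752, 920, 291, 508, 0⟩⟩,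
    ⟨true, ⟨3, false⟩, ⟨759, 893, 289, 458, 0⟩, false, ⟨2, false⟩, ⟨788, 921, 427, 666, 0⟩⟩,
    ⟨true, ⟨3, false⟩, ⟨744, 898, 279, 477, 0⟩, false, ⟨3, false⟩, ⟨780, 872, 239, 379, 0⟩⟩,
    ⟨true, ⟨3, false⟩, ⟨794, 896, 426, 607, 0⟩, false, ⟨2, false⟩, ⟨785, 917, 420, 656, 0⟩⟩]

theorem lNT_ok : ∀ e ∈ lNT, e.OK := by
  unfold lNT
  simp only [List.forall_mem_cons, List.not_mem_nil, false_imp_iff, implies_true, and_true]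
  exact ⟨e68x, e70x, e71x, e72x, e73x⟩

end Pool.Agent.S5.K
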