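import Pool.Agent.S5.K.Z.PD0

/-!
# Closed nodes: the divided entries
-/

set_option autoImplicit false

namespace Pool.Agent.S5.K

theorem e66x0011 : Ent.OK
    ⟨true, ⟨2, false⟩, ⟨875, 921, 598, 660, 0⟩, false, ⟨2, false⟩, ⟨795, 847, 421, 523, 0⟩⟩ :=
  Ent.dt' e66x00110 e66x00111

theorem e66x0111 : Ent.OK
    ⟨true, ⟨2, false⟩, ⟨875, 921, 598, 660, 0⟩, false, ⟨2, false⟩, ⟨847, 899, 421, 523, 0⟩⟩ :=
  Ent.dt' e66x01110 e66x01111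

theorem e66x001 : Ent.OK
    ⟨true, ⟨2, false⟩, ⟨875, 921, 536, 660, 0⟩, false, ⟨2, false⟩, ⟨795, 847, 421, 523, 0⟩⟩ :=
  Ent.dt e66x0010 e66x0011

theorem e66x011 : Ent.OK
    ⟨true, ⟨2, false⟩, ⟨875, 921, 536, 660, 0⟩, false, ⟨2, false⟩, ⟨847, 899, 421, 523, 0⟩⟩ :=
  Ent.dt e66x0110 e66x0111

theorem e66x00 : Ent.OK
    ⟨true, ⟨2, false⟩, ⟨829, 921, 536, 660, 0⟩, false, ⟨2, false⟩, ⟨795, 847, 421, 523, 0⟩⟩ :=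
  Ent.dk e66x000 e66x001

theorem e66x01 : Ent.OK
    ⟨true, ⟨2, false⟩, ⟨829, 921, 536, 660, 0⟩, false, ⟨2, false⟩, ⟨847, 899, 421, 523, 0⟩⟩ :=
  Ent.dk e66x010 e66x011

theorem e66x0 : Ent.OK
    ⟨true, ⟨2, false⟩, ⟨829, 921, 536, 660, 0⟩, false, ⟨2, false⟩, ⟨795, 899, 421, 523, 0⟩⟩ :=
  Ent.dk' e66x00 e66x01

theorem e66x1 : Ent.OK
    ⟨true, ⟨2, false⟩, ⟨829, 921, 536, 660, 0⟩, false, ⟨2, false⟩, ⟨795, 899, 523, 625, 0⟩⟩ :=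
  Ent.dk' e66x10 e66x11

theorem e66x : Ent.OK
    ⟨true, ⟨2, false⟩, ⟨829, 921, 536, 660, 0⟩, false, ⟨2, false⟩, ⟨795, 899, 421, 625, 0⟩⟩ :=
  Ent.dt' e66x0 e66x1

/-- The entries. -/
def lPT : List Ent := [
    ⟨true, ⟨2, false⟩, ⟨829, 921, 536, 660, 0⟩, false, ⟨2, false⟩, ⟨795, 899, 421, 625, 0⟩⟩]

theorem lPT_ok : ∀ e ∈ lPT, e.OK := by
  unfold lPT
  simp only [List.forall_mem_cons, List.not_mem_nil, false_imp_iff, implies_true, and_true]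
  exact e66x

end Pool.Agent.S5.K
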