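import Pool.Agent.S5.K.Z.N0
import Pool.Agent.S5.K.Z.N1
import Pool.Agent.S5.K.Z.N2
import Pool.Agent.S5.K.Z.N3
import Pool.Agent.S5.K.Z.NT
import Pool.Agent.S5.K.Z.PT
import Pool.Agent.S5.E.T.W9

/-!
# Closed nodes: the entries of the inner nodes cover all cases
-/

set_option autoImplicit false

namespace Pool.Agent.S5.K

/-- The entries. -/
def lN : List Ent := lN0 ++ (lN1 ++ (lN2 ++ (lN3 ++ (lNT ++ lPT))))

theorem lN_ok : ∀ e ∈ lN, e.OK := by
  unfold lN
  simp only [List.forall_mem_append]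
  exact ⟨lN0_ok, lN1_ok, lN2_ok, lN3_ok, lNT_ok, lPT_ok⟩

theorem covN9 : covN E.W9 lN = true := by decide +kernel

end Pool.Agent.S5.K
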